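import Pool.Graph.R_seed8.H904R6.CR.Pos

/-!
Positive part for pairs of permutations: the combinatorial steps.
-/

set_option autoImplicit false

namespace Pool.Agent.KS6_32.RS

open Pool.Agent.Helper446 Pool.Agent.Helper446.Defs Pool.Agent.Helper446.Oracle
open Pool.Agent.H904R6.CR.Real Pool.Agent.H904R6.CR.Pos

/-- patterns `(1 ⊖ S) ⊕ B` (or with the colours exchanged) -/
inductive T : Type
  | nil : T
  | node : T → T → T

def T.size : T → ℕ
  | .nil => 0
  | .node S B => S.size + B.size + 1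

/-- `E` is a copy of the pattern -/
def Copy (f : Coloring) (s : Fin 2) : T → List ℕ → Prop
  | .nil, E => E = []
  | .node S B, E => ∃ x E1 E2, E = x :: (E1 ++ E2) ∧ Copy f s S E1 ∧ Copy f s B E2 ∧
      (∀ e ∈ E1, x < e ∧ fv f x e = s) ∧ ∀ u ∈ x :: E1, ∀ v ∈ E2, u < v ∧ fv f u v = oth s

theorem re_copy {J : Set ℕ} (f : Coloring) (hf : Dec J fun n : ℕ => n ∈ code f) (s : Fin 2)
    (t : T) : REIn J fun E : List ℕ => Copy f s t E := by
  induction t with
  | nil => exact REIn.of_re (RE.eq (by fun_prop) (by fun_prop))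
  | node S B ihS ihB =>
    have h1 : REIn J fun E : List ℕ => ∃ q : ℕ × List ℕ × List ℕ, E = q.1 :: (q.2.1 ++ q.2.2) ∧
        Copy f s S q.2.1 ∧ Copy f s B q.2.2 ∧
        (∀ e ∈ q.2.1, q.1 < e ∧ fv f q.1 e = s) ∧
        ∀ u ∈ q.1 :: q.2.1, ∀ v ∈ q.2.2, u < v ∧ fv f u v = oth s := by
      refine REIn.ex (S := fun (E : List ℕ) (q : ℕ × List ℕ × List ℕ) =>
        E = q.1 :: (q.2.1 ++ q.2.2) ∧ Copy f s S q.2.1 ∧ Copy f s B q.2.2 ∧
        (∀ e ∈ q.2.1, q.1 < e ∧ fv f q.1 e = s) ∧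
        ∀ u ∈ q.1 :: q.2.1, ∀ v ∈ q.2.2, u < v ∧ fv f u v = oth s) ?_
      refine REIn.and (REIn.of_re (RE.eq (by fun_prop) (by fun_prop))) ?_
      refine REIn.and (ihS.comp (f := fun x : List ℕ × (ℕ × List ℕ × List ℕ) => x.2.2.1)
        (by fun_prop)) ?_
      refine REIn.and (ihB.comp (f := fun x : List ℕ × (ℕ × List ℕ × List ℕ) => x.2.2.2)
        (by fun_prop)) ?_
      refine REIn.and ?_ ?_
      · refine REIn.all_mem (S := fun (x : List ℕ × (ℕ × List ℕ × List ℕ)) (e : ℕ) =>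
          x.2.1 < e ∧ fv f x.2.1 e = s) ?_
          (l := fun x : List ℕ × (ℕ × List ℕ × List ℕ) => x.2.2.1) (by fun_prop)
        exact (dec_edge f hf s).1.comp
          (f := fun x : (List ℕ × (ℕ × List ℕ × List ℕ)) × ℕ => (x.1.2.1, x.2)) (by fun_prop)
      · refine REIn.all_mem (S := fun (x : List ℕ × (ℕ × List ℕ × List ℕ)) (u : ℕ) =>
          ∀ v ∈ x.2.2.2, u < v ∧ fv f u v = oth s) ?_
          (l := fun x : List ℕ × (ℕ × List ℕ × List ℕ) => x.2.1 :: x.2.2.1) (by fun_prop)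
        refine REIn.all_mem (S := fun (x : (List ℕ × (ℕ × List ℕ × List ℕ)) × ℕ) (v : ℕ) =>
          x.2 < v ∧ fv f x.2 v = oth s) ?_
          (l := fun x : (List ℕ × (ℕ × List ℕ × List ℕ)) × ℕ => x.1.2.2.2) (by fun_prop)
        exact (dec_edge f hf (oth s)).1.comp
          (f := fun x : ((List ℕ × (ℕ × List ℕ × List ℕ)) × ℕ) × ℕ => (x.1.2, x.2)) (by fun_prop)
    refine h1.of_eq fun E => ?_
    constructor
    · rintro ⟨⟨x, E1, E2⟩, h⟩
      exact ⟨x, E1, E2, h⟩
    · rintro ⟨x, E1, E2, h⟩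
      exact ⟨⟨x, E1, E2⟩, h⟩

/-- `c` splits `Y` into `m` parts, the part `j` avoids the patterns `γ 0 j`, `γ 1 j` -/
def Adm (f : Coloring) (Y : Set ℕ) (m : ℕ) (γ : Fin 2 → ℕ → T) (c : ℕ → ℕ) : Prop :=
  (∀ y ∈ Y, c y < m) ∧ ∀ s : Fin 2, ∀ j < m, ∀ E : List ℕ, (∀ e ∈ E, e ∈ Y ∧ c e = j) →
    ¬ Copy f s (γ s j) E

def sz (γ : Fin 2 → ℕ → T) (j : ℕ) : ℕ := (γ 0 j).size + (γ 1 j).size

def rk (m : ℕ) (γ : Fin 2 → ℕ → T) : ℕ := ∑ j ∈ Finset.range m, 3 ^ sz γ j

def upd (γ : Fin 2 → ℕ → T) (s : Fin 2) (j : ℕ) (t : T) : Fin 2 → ℕ → T :=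
  fun s' j' => if s' = s ∧ j' = j then t else γ s' j'

theorem rk_upd {m : ℕ} {γ : Fin 2 → ℕ → T} {s : Fin 2} {j : ℕ} {t : T} (hj : j < m)
    (h : t.size < (γ s j).size) : rk m (upd γ s j t) < rk m γ := by
  have key : sz (upd γ s j t) j < sz γ j := by
    unfold sz upd
    rcases fin2 s with rfl | rfl
    · simp
      omega
    · simp
      omega
  unfold rk
  refine Finset.sum_lt_sum (fun i _ => ?_) ⟨j, Finset.mem_range.2 hj, ?_⟩
  · apply Nat.pow_le_pow_right (by norm_num)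
    by_cases hi : i = j
    · rw [hi]; exact key.le
    · unfold sz upd
      simp [hi]
  · exact Nat.pow_lt_pow_right (by norm_num) key

/-- nothing of rank below `N` is admissible -/
def IHyp (f : Coloring) (J : Set ℕ) (N : ℕ) : Prop := ∀ (m : ℕ) (γ : Fin 2 → ℕ → T) (Y : Set ℕ)
  (c : ℕ → ℕ), rk m γ < N → Y.Infinite → (Dec J fun n : ℕ => n ∈ Y) → ¬ Adm f Y m γ c

theorem dec_all {J : Set ℕ} (f : Coloring) (hf : Dec J fun n : ℕ => n ∈ code f) (s : Fin 2)
    (E : List ℕ) : Dec J fun y : ℕ => ∀ e ∈ E, e < y ∧ fv f e y = s := by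
  induction E with
  | nil =>
    refine Dec.of_eq (Dec.not (Dec.lt (f := fun n : ℕ => n) (g := fun _ : ℕ => 0) (by fun_prop)
      (by fun_prop))) fun n => ?_
    simp
  | cons e E ih =>
    refine Dec.of_eq (((dec_edge f hf s).comp (f := fun y : ℕ => (e, y)) (by fun_prop)).and ih)
      fun n => ?_
    simp

theorem stepA {J : Set ℕ} (f : Coloring) (hf : Dec J fun n : ℕ => n ∈ code f) {m : ℕ}
    {γ : Fin 2 → ℕ → T} {Y : Set ℕ} {c : ℕ → ℕ} {s : Fin 2} {j : ℕ} {S B : T} {E : List ℕ}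
    (hI : IHyp f J (rk m γ)) (hY : Dec J fun n : ℕ => n ∈ Y) (hc : Adm f Y m γ c) (hj : j < m)
    (hg : γ s j = .node S B) (hE : ∀ e ∈ E, e ∈ Y ∧ c e = j) (hcp : Copy f s (.node S .nil) E) :
    {y | y ∈ Y ∧ ∀ e ∈ E, e < y ∧ fv f e y = oth s}.Finite := by
  by_contra hinf
  refine hI m (upd γ s j B) {y | y ∈ Y ∧ ∀ e ∈ E, e < y ∧ fv f e y = oth s} c
    (rk_upd hj (by rw [hg]; simp only [T.size]; omega)) hinf (hY.and (dec_all f hf (oth s) E)) ?_
  refine ⟨fun y hy => hc.1 y hy.1, fun s' j' hj' E' hE' hcp' => ?_⟩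
  by_cases h : s' = s ∧ j' = j
  · obtain ⟨rfl, rfl⟩ := h
    have e1 : upd γ s' j' B s' j' = B := by simp [upd]
    rw [e1] at hcp'
    obtain ⟨x, E1, E2, rfl, h1, h2, h3, h4⟩ := hcp
    have h5 : E2 = [] := h2
    subst h5
    refine hc.2 s' j' hj' (x :: (E1 ++ E')) ?_ ?_
    · intro e he
      rcases List.mem_cons.1 he with rfl | he
      · exact hE _ (by simp)
      · rcases List.mem_append.1 he with he | he
        · exact hE e (by simp [he])
        · exact ⟨(hE' e he).1.1, (hE' e he).2⟩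
    · rw [hg]
      exact ⟨x, E1, E', rfl, h1, hcp', h3, fun u hu v hv => (hE' v hv).1.2 u (by simpa using hu)⟩
  · have e1 : upd γ s j B s' j' = γ s' j' := by unfold upd; rw [if_neg h]
    rw [e1] at hcp'
    exact hc.2 s' j' hj' E' (fun e he => ⟨(hE' e he).1.1, (hE' e he).2⟩) hcp'

theorem stepE {J : Set ℕ} (f : Coloring) (hf : Dec J fun n : ℕ => n ∈ code f) {m : ℕ}
    {γ : Fin 2 → ℕ → T} {Y : Set ℕ} {c : ℕ → ℕ} {s : Fin 2} {j : ℕ} {S : T} {x : ℕ}
    (hI : IHyp f J (rk m γ)) (hY : Dec J fun n : ℕ => n ∈ Y) (hc : Adm f Y m γ c) (hj : j < m)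
    (hg : γ s j = .node S .nil) (hx : x ∈ Y) (hxj : c x = j) :
    {y | y ∈ Y ∧ (x < y ∧ fv f x y = s)}.Finite := by
  by_contra hinf
  refine hI m (upd γ s j S) {y | y ∈ Y ∧ (x < y ∧ fv f x y = s)} c
    (rk_upd hj (by rw [hg]; simp only [T.size]; omega)) hinf
    (hY.and ((dec_edge f hf s).comp (f := fun y : ℕ => (x, y)) (by fun_prop))) ?_
  refine ⟨fun y hy => hc.1 y hy.1, fun s' j' hj' E' hE' hcp' => ?_⟩
  by_cases h : s' = s ∧ j' = j
  · obtain ⟨rfl, rfl⟩ := h
    have e1 : upd γ s' j' S s' j' = S := by simp [upd]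
    rw [e1] at hcp'
    refine hc.2 s' j' hj' (x :: (E' ++ [])) ?_ ?_
    · intro e he
      rcases List.mem_cons.1 he with rfl | he
      · exact ⟨hx, hxj⟩
      · rw [List.append_nil] at he
        exact ⟨(hE' e he).1.1, (hE' e he).2⟩
    · rw [hg]
      exact ⟨x, E', [], rfl, hcp', rfl, fun e he => (hE' e he).1.2, fun u _ v hv => by simp at hv⟩
  · have e1 : upd γ s j S s' j' = γ s' j' := by unfold upd; rw [if_neg h]
    rw [e1] at hcp'
    exact hc.2 s' j' hj' E' (fun e he => ⟨(hE' e he).1.1, (hE' e he).2⟩) hcp'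

theorem limK (f : Coloring) {Y : Set ℕ} (hY : Y.Infinite) : ∃ K : ℕ → Fin 2, ∀ E : List ℕ,
    {y | y ∈ Y ∧ ∀ e ∈ E, e < y ∧ fv f e y = K e}.Infinite := by
  classical
  have hne : (Filter.cofinite ⊓ Filter.principal Y).NeBot := by
    rw [Filter.inf_principal_neBot_iff]
    intro U hU
    have h1 : (Uᶜ : Set ℕ).Finite := Filter.mem_cofinite.1 hU
    obtain ⟨y, hy, hyU⟩ := (hY.sdiff h1).nonempty
    exact ⟨y, by simpa using hyU, hy⟩
  let U := Ultrafilter.of (Filter.cofinite ⊓ Filter.principal Y)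
  have hU : (U : Filter ℕ) ≤ Filter.cofinite ⊓ Filter.principal Y := Ultrafilter.of_le _
  have hUY : ∀ᶠ y in (U : Filter ℕ), y ∈ Y := hU (Filter.mem_inf_of_right (Filter.mem_principal_self Y))
  have hUc : ∀ S : Set ℕ, S.Finite → ∀ᶠ y in (U : Filter ℕ), y ∉ S := fun S hS =>
    hU (Filter.mem_inf_of_left (Filter.mem_cofinite.2 (hS.subset fun x hx => by
      by_contra h; exact hx h)))
  have h1 : ∀ x, ∃ i : Fin 2, ∀ᶠ y in (U : Filter ℕ), fv f x y = i := by
    intro x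
    have h2 : ∀ᶠ y in (U : Filter ℕ), fv f x y = 0 ∨ fv f x y = 1 :=
      Filter.Eventually.of_forall fun y => fin2 _
    rcases Ultrafilter.eventually_or.1 h2 with h | h
    · exact ⟨0, h⟩
    · exact ⟨1, h⟩
  choose K hK using h1
  refine ⟨K, fun E hfin => ?_⟩
  have h3 : ∀ᶠ y in (U : Filter ℕ), ∀ e ∈ E, e < y ∧ fv f e y = K e := by
    clear hfin
    induction E with
    | nil => simp
    | cons e E ih =>
      filter_upwards [ih, hK e, hUc _ (Set.finite_Iic e)] with y h4 h5 h6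
      intro e' he'
      rcases List.mem_cons.1 he' with rfl | he'
      · exact ⟨by simpa using h6, h5⟩
      · exact h4 e' he'
  have h4 : ∀ᶠ y in (U : Filter ℕ), False := by
    filter_upwards [h3, hUY, hUc _ hfin] with y h5 h6 h7
    exact h7 ⟨h6, h5⟩
  obtain ⟨y, hy⟩ := h4.exists
  exact hy

theorem size_pos {t : T} (h : t ≠ .nil) : 0 < t.size := by
  cases t with
  | nil => exact absurd rfl h
  | node S B => simp only [T.size]; omega

theorem stepD {J : Set ℕ} (f : Coloring) (hf : Dec J fun n : ℕ => n ∈ code f) {m : ℕ}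
    {γ : Fin 2 → ℕ → T} {Y : Set ℕ} {c : ℕ → ℕ} {j : ℕ} {S0 B0 S1 B1 : T}
    (hI : IHyp f J (rk m γ)) (hYi : Y.Infinite) (hY : Dec J fun n : ℕ => n ∈ Y)
    (hc : Adm f Y m γ c) (hj : j < m)
    (h0 : γ 0 j = .node S0 B0) (h1 : γ 1 j = .node S1 B1) (hB0 : B0 ≠ .nil) (hB1 : B1 ≠ .nil) :
    False := by
  classical
  obtain ⟨K, hK⟩ := limK f hYi
  let γ' : Fin 2 → ℕ → T := fun s i =>
    if i = j then (if s = 1 then .node S1 .nil else γ 0 j)
    else if i = m then (if s = 0 then .node S0 .nil else γ 1 j) else γ s i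
  let c' : ℕ → ℕ := fun y => if c y = j ∧ K y = 1 then m else c y
  have hjm : j ≠ m := by omega
  have g1 : ∀ i, i ≠ j → i ≠ m → ∀ s, γ' s i = γ s i := by
    intro i h2 h3 s
    simp only [γ', if_neg h2, if_neg h3]
  have g2 : γ' 1 j = .node S1 .nil := by simp [γ']
  have g3 : γ' 0 j = γ 0 j := by simp [γ']
  have g4 : γ' 0 m = .node S0 .nil := by simp [γ', hjm.symm]
  have g5 : γ' 1 m = γ 1 j := by simp [γ', hjm.symm]
  have hb0 := size_pos hB0
  have hb1 := size_pos hB1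
  refine hI (m + 1) γ' Y c' ?_ hYi hY ⟨fun y hy => ?_, fun s i hi E hE hcp => ?_⟩
  · unfold rk
    rw [Finset.sum_range_succ, ← Finset.add_sum_erase (Finset.range m) _ (Finset.mem_range.2 hj),
      ← Finset.add_sum_erase (Finset.range m) (fun i => 3 ^ sz γ i) (Finset.mem_range.2 hj)]
    have e1 : ∑ i ∈ (Finset.range m).erase j, 3 ^ sz γ' i =
        ∑ i ∈ (Finset.range m).erase j, 3 ^ sz γ i := by
      refine Finset.sum_congr rfl fun i hi => ?_
      have h2 := Finset.mem_erase.1 hi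
      have h3 : i ≠ m := by
        have := Finset.mem_range.1 h2.2
        omega
      unfold sz
      rw [g1 i h2.1 h3, g1 i h2.1 h3]
    have e2 : sz γ' j + 1 ≤ sz γ j := by
      unfold sz
      rw [g2, g3, h1]
      simp only [T.size]
      omega
    have e3 : sz γ' m + 1 ≤ sz γ j := by
      unfold sz
      rw [g4, g5, h0]
      simp only [T.size]
      omega
    obtain ⟨n, hn⟩ : ∃ n, sz γ j = n + 1 := ⟨sz γ j - 1, by omega⟩
    have e4 : 3 ^ sz γ' j ≤ 3 ^ n := Nat.pow_le_pow_right (by norm_num) (by omega)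
    have e5 : 3 ^ sz γ' m ≤ 3 ^ n := Nat.pow_le_pow_right (by norm_num) (by omega)
    have e6 : 3 ^ sz γ j = 3 * 3 ^ n := by rw [hn, pow_succ]; ring
    have e7 : 0 < 3 ^ n := by positivity
    simp only [e1]
    omega
  · simp only [c']
    have := hc.1 y hy
    split_ifs <;> omega
  · have q1 : ∀ e ∈ E, e ∈ Y := fun e he => (hE e he).1
    have q2 : ∀ e ∈ E, (if c e = j ∧ K e = 1 then m else c e) = i := fun e he => (hE e he).2
    by_cases hij : i = j
    · subst hij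
      have q3 : ∀ e ∈ E, c e = i ∧ K e = 0 := by
        intro e he
        have h2 := q2 e he
        by_cases h3 : c e = i ∧ K e = 1
        · rw [if_pos h3] at h2
          exact absurd h2 hjm.symm
        · rw [if_neg h3] at h2
          refine ⟨h2, ?_⟩
          rcases fin2 (K e) with h4 | h4
          · exact h4
          · exact absurd ⟨h2, h4⟩ h3
      rcases fin2 s with rfl | rfl
      · rw [g3] at hcp
        exact hc.2 0 i hj E (fun e he => ⟨q1 e he, (q3 e he).1⟩) hcp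
      · rw [g2] at hcp
        have h5 := stepA f hf hI hY hc hj h1 (fun e he => ⟨q1 e he, (q3 e he).1⟩) hcp
        refine hK E (h5.subset ?_)
        rintro y ⟨hy1, hy2⟩
        refine ⟨hy1, fun e he => ⟨(hy2 e he).1, ?_⟩⟩
        rw [(hy2 e he).2, (q3 e he).2]
        rfl
    · by_cases him : i = m
      · subst him
        have q3 : ∀ e ∈ E, c e = j ∧ K e = 1 := by
          intro e he
          have h2 := q2 e he
          by_cases h3 : c e = j ∧ K e = 1
          · exact h3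
          · rw [if_neg h3] at h2
            have := hc.1 e (q1 e he)
            omega
        rcases fin2 s with rfl | rfl
        · rw [g4] at hcp
          have h5 := stepA f hf hI hY hc hj h0 (fun e he => ⟨q1 e he, (q3 e he).1⟩) hcp
          refine hK E (h5.subset ?_)
          rintro y ⟨hy1, hy2⟩
          refine ⟨hy1, fun e he => ⟨(hy2 e he).1, ?_⟩⟩
          rw [(hy2 e he).2, (q3 e he).2]
          rfl
        · rw [g5] at hcp
          exact hc.2 1 j hj E (fun e he => ⟨q1 e he, (q3 e he).1⟩) hcp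
      · rw [g1 i hij him] at hcp
        refine hc.2 s i (by omega) E (fun e he => ⟨q1 e he, ?_⟩) hcp
        have h2 := q2 e he
        split_ifs at h2 with h3
        · exact absurd h2.symm him
        · exact h2

end Pool.Agent.KS6_32.RS
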