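import Pool.Agent.KS6_32.RS.CopA

/-!
Positive part for pairs of permutations: compactness and decidability.
-/

set_option autoImplicit false

namespace Pool.Agent.KS6_32.RS

open Pool.Agent.Helper446 Pool.Agent.Helper446.Defs Pool.Agent.Helper446.Oracle
open Pool.Agent.H904R6.CR.Real Pool.Agent.H904R6.CR.Pos

theorem greedy {J : Set ℕ} (f : Coloring) (hf : Dec J fun n : ℕ => n ∈ code f) (G : Set ℕ)
    (hG : G.Infinite) (hGd : Dec J fun n : ℕ => n ∈ G) (s : Fin 2)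
    (hfin : ∀ x ∈ G, {y | y ∈ G ∧ (x < y ∧ fv f x y = s)}.Finite) :
    ∃ H : Set ℕ, RT22 f H ∧ Dec J fun n : ℕ => n ∈ H := by
  refine ⟨{n | Hg f G (oth s) n}, ⟨?_, oth s, ?_⟩, dec_Hg f G (oth s) hf hGd⟩
  · intro hHfin
    have h1 : (⋃ h ∈ {n | Hg f G (oth s) n}, {y | y ∈ G ∧ (h < y ∧ fv f h y = s)}).Finite := by
      apply hHfin.biUnion
      intro h hh
      exact hfin h ((Hg_iff f G (oth s) h).1 hh).1
    obtain ⟨b, hb⟩ := hHfin.bddAbove
    have h2 : ((⋃ h ∈ {n | Hg f G (oth s) n}, {y | y ∈ G ∧ (h < y ∧ fv f h y = s)}) ∪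
        Set.Iic b).Finite := h1.union (Set.finite_Iic b)
    obtain ⟨n, hn1, hn2⟩ := (hG.sdiff h2).nonempty
    have h3 : Hg f G (oth s) n := by
      rw [Hg_iff]
      refine ⟨hn1, fun y hy hyH => ?_⟩
      rw [← ne_iff]
      intro h4
      apply hn2
      left
      rw [Set.mem_iUnion₂]
      exact ⟨y, hyH, hn1, hy, h4⟩
    apply hn2
    right
    exact hb h3
  · intro x y h hx hy
    rw [← fv_eq f h]
    exact ((Hg_iff f G (oth s) y).1 hy).2 x h hx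

/-- the digits: the words of length `n` over `m` letters are coded by the numbers below `m ^ n` -/
def dig (m i y : ℕ) : ℕ := i / m ^ y % m

theorem dig_lt {m : ℕ} (hm : 0 < m) (i y : ℕ) : dig m i y < m := Nat.mod_lt _ hm

theorem exists_word {m : ℕ} (hm : 0 < m) (c : ℕ → ℕ) (hc : ∀ y, c y < m) (n : ℕ) :
    ∃ i < m ^ n, ∀ y < n, dig m i y = c y := by
  induction n with
  | zero => exact ⟨0, by simp, fun y hy => absurd hy (Nat.not_lt_zero y)⟩
  | succ n ih =>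
    obtain ⟨i, hi, h⟩ := ih
    refine ⟨i + c n * m ^ n, ?_, fun y hy => ?_⟩
    · have h1 : c n * m ^ n ≤ (m - 1) * m ^ n := Nat.mul_le_mul_right _ (by have := hc n; omega)
      have h2 : (m - 1) * m ^ n + m ^ n = m ^ (n + 1) := by
        rw [pow_succ]
        obtain ⟨k, rfl⟩ : ∃ k, m = k + 1 := ⟨m - 1, by omega⟩
        simp only [Nat.add_sub_cancel]
        ring
      omega
    · unfold dig
      by_cases hyn : y = n
      · subst hyn
        rw [Nat.add_mul_div_right _ _ (pow_pos hm y), Nat.div_eq_of_lt hi, Nat.zero_add,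
          Nat.mod_eq_of_lt (hc y)]
      · obtain ⟨k, rfl⟩ : ∃ k, n = y + (k + 1) := ⟨n - y - 1, by omega⟩
        have e1 : c (y + (k + 1)) * m ^ (y + (k + 1)) = (c (y + (k + 1)) * m ^ k * m) * m ^ y := by
          ring
        rw [e1, Nat.add_mul_div_right _ _ (pow_pos hm y), Nat.add_mul_mod_self_right]
        exact h y (by omega)

theorem comp_dig (m : ℕ) : Computable fun p : ℕ × ℕ => dig m p.1 p.2 := by
  have h1 : Primrec₂ ((· ^ ·) : ℕ → ℕ → ℕ) := Primrec₂.unpaired'.1 Nat.Primrec.pow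
  have h2 : Primrec fun p : ℕ × ℕ => m ^ p.2 := h1.comp (Primrec.const m) Primrec.snd
  exact (Primrec.nat_mod.comp (Primrec.nat_div.comp Primrec.fst h2) (Primrec.const m)).to_comp

theorem comp_pow (m : ℕ) : Computable fun n : ℕ => m ^ n := by
  have h1 : Primrec₂ ((· ^ ·) : ℕ → ℕ → ℕ) := Primrec₂.unpaired'.1 Nat.Primrec.pow
  exact (h1.comp (Primrec.const m) Primrec.id).to_comp

theorem compact {m : ℕ} (w : ℕ → ℕ → ℕ) (hw : ∀ n y, w n y < m) : ∃ c : ℕ → ℕ, (∀ y, c y < m) ∧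
    ∀ (E : List ℕ) (N : ℕ), ∃ n, N ≤ n ∧ ∀ e ∈ E, w n e = c e := by
  classical
  let U := Filter.hyperfilter ℕ
  have h1 : ∀ y, ∃ j ∈ {j : ℕ | j < m}, ∀ᶠ n in (U : Filter ℕ), w n y = j := by
    intro y
    rw [← Ultrafilter.eventually_exists_mem_iff (Set.finite_lt_nat m)]
    exact Filter.Eventually.of_forall fun n => ⟨w n y, hw n y, rfl⟩
  choose c hc hcU using h1
  refine ⟨c, hc, fun E N => ?_⟩
  have h3 : ∀ᶠ n in (U : Filter ℕ), ∀ e ∈ E, w n e = c e := by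
    induction E with
    | nil => simp
    | cons e E ih =>
      filter_upwards [ih, hcU e] with n h4 h5
      intro e' he'
      rcases List.mem_cons.1 he' with rfl | he'
      · exact h5
      · exact h4 e' he'
  have h4 : ∀ᶠ n in (U : Filter ℕ), N ≤ n := by
    have h5 : (U : Filter ℕ) ≤ Filter.cofinite := Filter.hyperfilter_le_cofinite
    rw [Nat.cofinite_eq_atTop] at h5
    exact h5 (Filter.eventually_ge_atTop N)
  obtain ⟨n, h5, h6⟩ := (h3.and h4).exists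
  exact ⟨n, h6, h5⟩

theorem re_fin {α : Type} [Primcodable α] {J : Set ℕ} (S : ℕ → α → Prop) (m : ℕ)
    (h : ∀ j < m, REIn J (S j)) : REIn J fun a => ∃ j < m, S j a := by
  induction m with
  | zero => exact (REIn.of_re (RE.const False)).of_eq fun a => by simp
  | succ m ih =>
    refine ((ih fun j hj => h j (by omega)).or (h m (by omega))).of_eq fun a => ?_
    constructor
    · rintro (⟨j, hj, h1⟩ | h1)
      · exact ⟨j, by omega, h1⟩
      · exact ⟨m, by omega, h1⟩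
    · rintro ⟨j, hj, h1⟩
      by_cases hjm : j = m
      · subst hjm
        exact Or.inr h1
      · exact Or.inl ⟨j, by omega, h1⟩

attribute [local irreducible] dig

/-- the word `i` of length `n` is seen to be bad -/
def Inv (f : Coloring) (Y : Set ℕ) (m : ℕ) (γ : Fin 2 → ℕ → T) (n i : ℕ) : Prop :=
  ∃ j < m, ∃ E : List ℕ, (∀ e ∈ E, e ∈ Y ∧ e < n ∧ dig m i e = j) ∧
    (Copy f 0 (γ 0 j) E ∨ Copy f 1 (γ 1 j) E)

/-- all words of some length put `x` on the side `r`, or are bad -/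
def Wr (f : Coloring) (Y : Set ℕ) (m : ℕ) (γ : Fin 2 → ℕ → T) (τ : ℕ → Fin 2) (r : Fin 2)
    (x : ℕ) : Prop :=
  ∃ n, x < n ∧ ∀ i < m ^ n, (∃ j < m, τ j = r ∧ dig m i x = j) ∨ Inv f Y m γ n i

theorem re_Wr {J : Set ℕ} (f : Coloring) (hf : Dec J fun n : ℕ => n ∈ code f) {Y : Set ℕ}
    (hY : Dec J fun n : ℕ => n ∈ Y) (m : ℕ) (γ : Fin 2 → ℕ → T) (τ : ℕ → Fin 2) (r : Fin 2) :
    REIn J (Wr f Y m γ τ r) := by
  have hInv : REIn J fun p : ℕ × ℕ => Inv f Y m γ p.1 p.2 := by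
    unfold Inv
    refine re_fin (fun j (p : ℕ × ℕ) => ∃ E : List ℕ, (∀ e ∈ E, e ∈ Y ∧ e < p.1 ∧ dig m p.2 e = j) ∧
      (Copy f 0 (γ 0 j) E ∨ Copy f 1 (γ 1 j) E)) m fun j _ => ?_
    refine REIn.ex (S := fun (p : ℕ × ℕ) (E : List ℕ) => (∀ e ∈ E, e ∈ Y ∧ e < p.1 ∧
      dig m p.2 e = j) ∧ (Copy f 0 (γ 0 j) E ∨ Copy f 1 (γ 1 j) E)) ?_
    refine REIn.and ?_ (REIn.or ((re_copy f hf 0 (γ 0 j)).comp
      (f := fun x : (ℕ × ℕ) × List ℕ => x.2) (by fun_prop)) ((re_copy f hf 1 (γ 1 j)).comp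
      (f := fun x : (ℕ × ℕ) × List ℕ => x.2) (by fun_prop)))
    refine REIn.all_mem (S := fun (x : (ℕ × ℕ) × List ℕ) (e : ℕ) => e ∈ Y ∧ e < x.1.1 ∧
      dig m x.1.2 e = j) ?_ (l := fun x : (ℕ × ℕ) × List ℕ => x.2) (by fun_prop)
    refine REIn.and (hY.1.comp (f := fun x : ((ℕ × ℕ) × List ℕ) × ℕ => x.2) (by fun_prop)) ?_
    have hg : Computable fun x : ((ℕ × ℕ) × List ℕ) × ℕ => ((x.1.1.2, x.2) : ℕ × ℕ) := by
      fun_prop
    have hd : Computable fun x : ((ℕ × ℕ) × List ℕ) × ℕ => dig m x.1.1.2 x.2 :=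
      (comp_dig m).comp hg
    have hlt : REPred fun x : ((ℕ × ℕ) × List ℕ) × ℕ => x.2 < x.1.1.1 :=
      RE.lt (by fun_prop) (by fun_prop)
    have heq : REPred fun x : ((ℕ × ℕ) × List ℕ) × ℕ => dig m x.1.1.2 x.2 = j :=
      RE.eq hd (Computable.const j)
    exact REIn.and (REIn.of_re hlt) (REIn.of_re heq)
  have hGo : REIn J fun p : ℕ × ℕ => ∃ j < m, τ j = r ∧ dig m p.1 p.2 = j := by
    refine re_fin (fun j (p : ℕ × ℕ) => τ j = r ∧ dig m p.1 p.2 = j) m fun j _ => ?_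
    have heq : REPred fun p : ℕ × ℕ => dig m p.1 p.2 = j := RE.eq (comp_dig m) (Computable.const j)
    exact REIn.and (REIn.of_re (RE.const _)) (REIn.of_re heq)
  have hmain : REIn J fun p : ℕ × ℕ => p.1 < p.2 ∧ ∀ i < m ^ p.2,
      (∃ j < m, τ j = r ∧ dig m i p.1 = j) ∨ Inv f Y m γ p.2 i := by
    have hlt : REPred fun p : ℕ × ℕ => p.1 < p.2 := RE.lt (by fun_prop) (by fun_prop)
    have hpw : Computable fun p : ℕ × ℕ => m ^ p.2 := (comp_pow m).comp Computable.snd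
    refine REIn.and (REIn.of_re hlt) ?_
    refine REIn.all_lt (S := fun (p : ℕ × ℕ) (i : ℕ) =>
      (∃ j < m, τ j = r ∧ dig m i p.1 = j) ∨ Inv f Y m γ p.2 i) ?_ hpw
    exact REIn.or (hGo.comp (f := fun x : (ℕ × ℕ) × ℕ => (x.2, x.1.1)) (by fun_prop))
      (hInv.comp (f := fun x : (ℕ × ℕ) × ℕ => (x.1.2, x.2)) (by fun_prop))
  exact REIn.ex (S := fun (x n : ℕ) => x < n ∧ ∀ i < m ^ n,
    (∃ j < m, τ j = r ∧ dig m i x = j) ∨ Inv f Y m γ n i) hmain

theorem Wr_sound {f : Coloring} {Y : Set ℕ} {m : ℕ} {γ : Fin 2 → ℕ → T} {τ : ℕ → Fin 2}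
    {r : Fin 2} {c : ℕ → ℕ} (hc : Adm f Y m γ c) {x : ℕ} (hx : x ∈ Y)
    (h : Wr f Y m γ τ r x) : τ (c x) = r := by
  classical
  obtain ⟨n, hxn, h⟩ := h
  have hm : 0 < m := by have := hc.1 x hx; omega
  obtain ⟨i, hi, h1⟩ := exists_word hm (fun y => if c y < m then c y else 0)
    (fun y => by split_ifs <;> omega) n
  have h2 : ∀ y < n, y ∈ Y → dig m i y = c y := by
    intro y hy hyY
    rw [h1 y hy, if_pos (hc.1 y hyY)]
  rcases h i hi with ⟨j, hj, h3, h4⟩ | ⟨j, hj, E, h3, h4⟩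
  · rw [h2 x hxn hx] at h4
    rw [h4, h3]
  · exfalso
    have h5 : ∀ e ∈ E, e ∈ Y ∧ c e = j := fun e he =>
      ⟨(h3 e he).1, by rw [← h2 e (h3 e he).2.1 (h3 e he).1]; exact (h3 e he).2.2⟩
    rcases h4 with h4 | h4
    · exact hc.2 0 j hj E h5 h4
    · exact hc.2 1 j hj E h5 h4

theorem Wr_complete {f : Coloring} {Y : Set ℕ} {m : ℕ} (hm : 0 < m) {γ : Fin 2 → ℕ → T}
    {τ : ℕ → Fin 2} {r : Fin 2} {x : ℕ} (h : ∀ c, Adm f Y m γ c → τ (c x) = r) :
    Wr f Y m γ τ r x := by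
  classical
  by_contra hno
  have h1 : ∀ n, ∃ i, x < n → (¬ ∃ j < m, τ j = r ∧ dig m i x = j) ∧ ¬ Inv f Y m γ n i := by
    intro n
    by_cases hn : x < n
    · by_contra h2
      apply hno
      refine ⟨n, hn, fun i _ => ?_⟩
      by_contra h3
      rw [not_or] at h3
      exact h2 ⟨i, fun _ => h3⟩
    · exact ⟨0, fun h => absurd h hn⟩
  choose w hw using h1
  obtain ⟨c, hcm, hc⟩ := compact (fun n y => dig m (w n) y) (fun n y => dig_lt hm _ _)
  have hadm : Adm f Y m γ c := by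
    refine ⟨fun y _ => hcm y, fun s j hj E hE hcp => ?_⟩
    obtain ⟨n, hn, h2⟩ := hc E (x + 1 + E.sum + 1)
    refine (hw n (by omega)).2 ⟨j, hj, E, fun e he => ⟨(hE e he).1, ?_, ?_⟩, ?_⟩
    · have : e ≤ E.sum := List.single_le_sum (fun _ _ => Nat.zero_le _) e he
      omega
    · have := h2 e he
      rw [this]
      exact (hE e he).2
    · rcases fin2 s with rfl | rfl
      · exact Or.inl hcp
      · exact Or.inr hcp
  have h3 := h c hadm
  obtain ⟨n, hn, h2⟩ := hc [x] (x + 1)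
  exact (hw n (by omega)).1 ⟨c x, hcm x, h3, h2 x (by simp)⟩

end Pool.Agent.KS6_32.RS
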