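import Pool.Agent.KS6_32.RS.CopB

/-!
Positive part for pairs of permutations: the main induction and the translation of patterns.
-/

set_option autoImplicit false

namespace Pool.Agent.KS6_32.RS

open Pool.Agent.Helper446 Pool.Agent.Helper446.Defs Pool.Agent.Helper446.Oracle
open Pool.Agent.H904R6.CR.Real Pool.Agent.H904R6.CR.Pos

theorem oth0 : oth 0 = 1 := rfl
theorem oth1 : oth 1 = 0 := rfl

theorem main2 {J : Set ℕ} (f : Coloring) (hf : Dec J fun n : ℕ => n ∈ code f) :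
    ∀ (N m : ℕ) (γ : Fin 2 → ℕ → T) (Y : Set ℕ) (c : ℕ → ℕ), rk m γ = N → Y.Infinite →
      (Dec J fun n : ℕ => n ∈ Y) → Adm f Y m γ c →
      ∃ H : Set ℕ, RT22 f H ∧ Dec J fun n : ℕ => n ∈ H := by
  classical
  intro N
  induction N using Nat.strong_induction_on with
  | _ N ih =>
  intro m γ Y c hN hYi hY hc
  by_contra hno
  have hI : IHyp f J (rk m γ) := fun m' γ' Y' c' hr hi hd ha =>
    hno (ih _ (by rw [← hN]; exact hr) m' γ' Y' c' rfl hi hd ha)
  obtain ⟨y0, hy0⟩ := hYi.nonempty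
  have hm : 0 < m := by have := hc.1 y0 hy0; omega
  have hnil : ∀ s : Fin 2, ∀ j < m, γ s j ≠ .nil := by
    intro s j hj h
    refine hc.2 s j hj [] (by simp) ?_
    rw [h]
    exact rfl
  have hform : ∀ j < m, (∃ S, γ 0 j = .node S .nil) ∨ (∃ S, γ 1 j = .node S .nil) := by
    intro j hj
    rcases h0 : γ 0 j with _ | ⟨S0, B0⟩
    · exact absurd h0 (hnil 0 j hj)
    rcases h1 : γ 1 j with _ | ⟨S1, B1⟩
    · exact absurd h1 (hnil 1 j hj)
    by_cases hB0 : B0 = .nil
    · exact Or.inl ⟨S0, by rw [hB0]⟩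
    by_cases hB1 : B1 = .nil
    · exact Or.inr ⟨S1, by rw [hB1]⟩
    exact (stepD f hf hI hYi hY hc hj h0 h1 hB0 hB1).elim
  let τ : ℕ → Fin 2 := fun j => if ∃ S, γ 1 j = .node S .nil then 0 else 1
  have hside : ∀ c', Adm f Y m γ c' → ∀ x ∈ Y,
      {y | y ∈ Y ∧ (x < y ∧ fv f x y = oth (τ (c' x)))}.Finite := by
    intro c' hc' x hx
    by_cases h : ∃ S, γ 1 (c' x) = .node S .nil
    · have e1 : τ (c' x) = 0 := if_pos h
      rw [e1, oth0]
      obtain ⟨S, hS⟩ := h
      exact stepE f hf hI hY hc' (hc'.1 x hx) hS hx rfl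
    · have e1 : τ (c' x) = 1 := if_neg h
      rw [e1, oth1]
      rcases hform (c' x) (hc'.1 x hx) with ⟨S, hS⟩ | h2
      · exact stepE f hf hI hY hc' (hc'.1 x hx) hS hx rfl
      · exact absurd h2 h
  have hboth : ∀ x, {y | y ∈ Y ∧ (x < y ∧ fv f x y = 0)}.Finite →
      {y | y ∈ Y ∧ (x < y ∧ fv f x y = 1)}.Finite → False := by
    intro x h1 h2
    apply hYi
    refine ((h1.union h2).union (Set.finite_Iic x)).subset fun y hy => ?_
    by_cases hxy : x < y
    · left
      rcases fin2 (fv f x y) with h | h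
      · exact Or.inl ⟨hy, hxy, h⟩
      · exact Or.inr ⟨hy, hxy, h⟩
    · right
      simpa using hxy
  have huniq : ∀ c', Adm f Y m γ c' → ∀ x ∈ Y, τ (c' x) = τ (c x) := by
    intro c' hc' x hx
    have h1 := hside c' hc' x hx
    have h2 := hside c hc x hx
    rcases fin2 (τ (c' x)) with h3 | h3 <;> rcases fin2 (τ (c x)) with h4 | h4
    · rw [h3, h4]
    · rw [h3, oth0] at h1
      rw [h4, oth1] at h2
      exact (hboth x h2 h1).elim
    · rw [h3, oth1] at h1
      rw [h4, oth0] at h2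
      exact (hboth x h1 h2).elim
    · rw [h3, h4]
  have hdec : ∀ r : Fin 2, Dec J fun x : ℕ => x ∈ {x | x ∈ Y ∧ τ (c x) = r} := by
    intro r
    constructor
    · refine (hY.1.and (re_Wr f hf hY m γ τ r)).of_eq fun x => ?_
      constructor
      · rintro ⟨hx, h⟩
        exact ⟨hx, Wr_sound hc hx h⟩
      · rintro ⟨hx, h⟩
        exact ⟨hx, Wr_complete hm fun c' hc' => (huniq c' hc' x hx).trans h⟩
    · refine (hY.2.or (re_Wr f hf hY m γ τ (oth r))).of_eq fun x => ?_
      constructor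
      · rintro (h | h) ⟨hx, h2⟩
        · exact h hx
        · have h3 := Wr_sound hc hx h
          rw [← ne_iff] at h3
          exact h3 h2
      · intro h
        by_cases hx : x ∈ Y
        · right
          refine Wr_complete hm fun c' hc' => (huniq c' hc' x hx).trans ?_
          rw [← ne_iff]
          intro h2
          exact h ⟨hx, h2⟩
        · exact Or.inl hx
  have hfin : ∀ r : Fin 2, ∀ x ∈ {x | x ∈ Y ∧ τ (c x) = r},
      {y | y ∈ {x | x ∈ Y ∧ τ (c x) = r} ∧ (x < y ∧ fv f x y = oth r)}.Finite := by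
    rintro r x ⟨hx, hr⟩
    have h1 := hside c hc x hx
    rw [hr] at h1
    refine h1.subset ?_
    rintro y ⟨⟨hy, _⟩, h2⟩
    exact ⟨hy, h2⟩
  have hunion : Y ⊆ {x | x ∈ Y ∧ τ (c x) = 0} ∪ {x | x ∈ Y ∧ τ (c x) = 1} := by
    intro y hy
    rcases fin2 (τ (c y)) with h | h
    · exact Or.inl ⟨hy, h⟩
    · exact Or.inr ⟨hy, h⟩
  rcases Set.infinite_union.1 (hYi.mono hunion) with h | h
  · exact hno (greedy f hf _ h (hdec 0) (oth 0) (hfin 0))
  · exact hno (greedy f hf _ h (hdec 1) (oth 1) (hfin 1))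

/-- the translation of the patterns of permutations -/
theorem exists_T (f : Coloring) (p : ℕ → ℕ → Fin 2) (s : Fin 2) (l : ℕ)
    (htr : ∀ r : Fin 2, ∀ i j k, i < j → j < k → k < l → p i j = r → p j k = r → p i k = r)
    (hav : ∀ i j k, i < j → j < k → k < l → ¬ (p i j = oth s ∧ p i k = s ∧ p j k = s)) :
    ∀ n lo, lo + n ≤ l → ∃ t : T, ∀ E, Copy f s t E → E.length = n ∧ ∀ i j, i < j → j < n →
      E.getD i 0 < E.getD j 0 ∧ fv f (E.getD i 0) (E.getD j 0) = p (lo + i) (lo + j) := by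
  classical
  intro n
  induction n using Nat.strong_induction_on with
  | _ n ih =>
  intro lo hlo
  rcases n with _ | n
  · refine ⟨.nil, fun E hE => ⟨?_, fun i j _ hj => absurd hj (Nat.not_lt_zero j)⟩⟩
    have : E = [] := hE
    rw [this]
    rfl
  have hex : ∃ k, k = n ∨ p lo (lo + k + 1) = oth s := ⟨n, Or.inl rfl⟩
  obtain ⟨q, hq1, hq2, hqn⟩ : ∃ q, (q = n ∨ p lo (lo + q + 1) = oth s) ∧
      (∀ k < q, p lo (lo + k + 1) = s) ∧ q ≤ n := by
    refine ⟨Nat.find hex, Nat.find_spec hex, fun k hk => ?_, Nat.find_min' hex (Or.inl rfl)⟩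
    have h1 := Nat.find_min hex hk
    rw [not_or] at h1
    by_contra h2
    exact h1.2 ((ne_iff _ _).1 h2)
  have hos : oth s ≠ s := by rcases fin2 s with rfl | rfl <;> decide
  -- the last part
  have hB : ∀ k, q < k → k ≤ n → p lo (lo + k) = oth s := by
    intro k hk hkn
    rcases hq1 with h1 | h1
    · omega
    by_cases hk1 : k = q + 1
    · rw [hk1]
      exact h1
    · rw [← ne_iff]
      intro h2
      by_cases h3 : p (lo + q + 1) (lo + k) = s
      · exact hav lo (lo + q + 1) (lo + k) (by omega) (by omega) (by omega) ⟨h1, h2, h3⟩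
      · have h4 := htr (oth s) lo (lo + q + 1) (lo + k) (by omega) (by omega) (by omega) h1
          ((ne_iff _ _).1 h3)
        rw [h2] at h4
        exact hos h4.symm
  have hS : ∀ k, 1 ≤ k → k ≤ q → p lo (lo + k) = s := by
    intro k hk hkq
    obtain ⟨k', rfl⟩ : ∃ k', k = k' + 1 := ⟨k - 1, by omega⟩
    exact hq2 k' (by omega)
  have hSB : ∀ i k, 1 ≤ i → i ≤ q → q < k → k ≤ n → p (lo + i) (lo + k) = oth s := by
    intro i k hi hiq hk hkn
    rw [← ne_iff]
    intro h1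
    have h2 := htr s lo (lo + i) (lo + k) (by omega) (by omega) (by omega) (hS i hi hiq) h1
    rw [hB k hk hkn] at h2
    exact hos h2
  obtain ⟨tS, htS⟩ := ih q (by omega) (lo + 1) (by omega)
  obtain ⟨tB, htB⟩ := ih (n - q) (by omega) (lo + q + 1) (by omega)
  refine ⟨.node tS tB, ?_⟩
  rintro E ⟨x, E1, E2, rfl, h1, h2, h3, h4⟩
  obtain ⟨l1, m1⟩ := htS E1 h1
  obtain ⟨l2, m2⟩ := htB E2 h2
  have g0 : (x :: (E1 ++ E2)).getD 0 0 = x := rfl
  have g1 : ∀ i, i < q → (x :: (E1 ++ E2)).getD (i + 1) 0 = E1.getD i 0 := by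
    intro i hi
    rw [List.getD_cons_succ, List.getD_append _ _ _ _ (by omega)]
  have g2 : ∀ i, (x :: (E1 ++ E2)).getD (q + i + 1) 0 = E2.getD i 0 := by
    intro i
    rw [List.getD_cons_succ, List.getD_append_right _ _ _ _ (by omega)]
    congr 1
    omega
  have e1 : ∀ i, i < q → E1.getD i 0 ∈ E1 := by
    intro i hi
    rw [List.getD_eq_getElem _ _ (by omega)]
    exact List.getElem_mem _
  have e2 : ∀ i, i < n - q → E2.getD i 0 ∈ E2 := by
    intro i hi
    rw [List.getD_eq_getElem _ _ (by omega)]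
    exact List.getElem_mem _
  refine ⟨by simp only [List.length_cons, List.length_append]; omega, fun i j hij hj => ?_⟩
  by_cases hjq : j ≤ q
  · obtain ⟨j', rfl⟩ : ∃ j', j = j' + 1 := ⟨j - 1, by omega⟩
    rw [g1 j' (by omega)]
    rcases i with _ | i
    · rw [g0, Nat.add_zero]
      have := h3 _ (e1 j' (by omega))
      refine ⟨this.1, ?_⟩
      rw [this.2, hS (j' + 1) (by omega) hjq]
    · rw [g1 i (by omega)]
      have := m1 i j' (by omega) (by omega)
      refine ⟨this.1, ?_⟩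
      rw [this.2]
      congr 1 <;> omega
  · obtain ⟨j', rfl⟩ : ∃ j', j = q + j' + 1 := ⟨j - q - 1, by omega⟩
    rw [g2 j']
    by_cases hiq : i ≤ q
    · have hm2 := e2 j' (by omega)
      rcases i with _ | i
      · rw [g0, Nat.add_zero]
        have := h4 x (by simp) _ hm2
        refine ⟨this.1, ?_⟩
        rw [this.2, hB (q + j' + 1) (by omega) (by omega)]
      · rw [g1 i (by omega)]
        have := h4 _ (List.mem_cons_of_mem _ (e1 i (by omega))) _ hm2
        refine ⟨this.1, ?_⟩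
        rw [this.2, hSB (i + 1) (q + j' + 1) (by omega) hiq (by omega) (by omega)]
    · obtain ⟨i', rfl⟩ : ∃ i', i = q + i' + 1 := ⟨i - q - 1, by omega⟩
      rw [g2 i']
      have := m2 i' j' (by omega) (by omega)
      refine ⟨this.1, ?_⟩
      rw [this.2]
      congr 1 <;> omega

/-- two patterns of permutations, one of each kind -/
theorem positive2 {J : Set ℕ} (f : Coloring) (hf : Dec J fun n : ℕ => n ∈ code f) (G : Set ℕ)
    (hG : G.Infinite) (hGd : Dec J fun n : ℕ => n ∈ G) (l : Fin 2 → ℕ)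
    (p : Fin 2 → ℕ → ℕ → Fin 2)
    (htr : ∀ s r : Fin 2, ∀ i j k, i < j → j < k → k < l s → p s i j = r → p s j k = r →
      p s i k = r)
    (hav : ∀ s : Fin 2, ∀ i j k, i < j → j < k → k < l s →
      ¬ (p s i j = oth s ∧ p s i k = s ∧ p s j k = s))
    (hno : ∀ s : Fin 2, ¬ ∃ x : ℕ → ℕ, (∀ i, i < l s → x i ∈ G) ∧
      ∀ i j, i < j → j < l s → ∃ h : x i < x j, f ⟨(x i, x j), h⟩ = p s i j) :
    ∃ H : Set ℕ, RT22 f H ∧ Dec J fun n : ℕ => n ∈ H := by
  have h1 : ∀ s : Fin 2, ∃ t : T, ∀ E, Copy f s t E → E.length = l s ∧ ∀ i j, i < j → j < l s →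
      E.getD i 0 < E.getD j 0 ∧ fv f (E.getD i 0) (E.getD j 0) = p s (0 + i) (0 + j) := fun s =>
    exists_T f (p s) s (l s) (htr s) (hav s) (l s) 0 (by omega)
  choose t ht using h1
  refine main2 f hf _ 1 (fun s _ => t s) G (fun _ => 0) rfl hG hGd
    ⟨fun _ _ => Nat.zero_lt_one, fun s j _ E hE hcp => ?_⟩
  obtain ⟨h2, h3⟩ := ht s E hcp
  refine hno s ⟨fun i => E.getD i 0, fun i hi => ?_, fun i j hij hj => ?_⟩
  · show E.getD i 0 ∈ G
    rw [List.getD_eq_getElem _ _ (by omega)]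
    exact (hE _ (List.getElem_mem _)).1
  · obtain ⟨h4, h5⟩ := h3 i j hij hj
    refine ⟨h4, ?_⟩
    rw [← fv_eq f h4]
    simpa using h5

end Pool.Agent.KS6_32.RS
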