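import Pool.Graph.R_seed8.H904R6.CR.Asm

/-!
The main theorem of the negative part, relative to an arbitrary oracle `P`.
-/

set_option autoImplicit false

namespace Pool.Agent.KS6_32.RS

open Pool.Agent.H904R6.CR Pool.Agent.H904R6.CR.Final Pool.Agent.Helper446
  Pool.Agent.Helper446.Defs Pool.Agent.Helper446.Oracle

def FunP (P : Set ℕ) (R : ℕ → List ℕ × List ℕ → Prop) : Fn := fun v k G f =>
  ∃ c, R v c ∧ (∀ x ∈ c.1, x < k ∧ x ∈ jn (jn P (cod f)) (st G)) ∧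
    ∀ x ∈ c.2, x < k ∧ x ∉ jn (jn P (cod f)) (st G)

theorem jn1_ag {P : Set ℕ} {k : ℕ} {f g : Col} (h : agC k f g) {n : ℕ} (hn : n < k) :
    n ∈ jn P (cod f) ↔ n ∈ jn P (cod g) := by
  have hn2 : n / 2 < k := by omega
  unfold jn
  simp only [Set.mem_setOf_eq]
  rw [cod_ag h hn2]

theorem jnP_ag {P : Set ℕ} {k : ℕ} {f g : Col} {G H : S} (h : agC k f g) (h2 : agS k G H) {n : ℕ}
    (hn : n < k) :
    n ∈ jn (jn P (cod f)) (st G) ↔ n ∈ jn (jn P (cod g)) (st H) := by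
  have hn2 : n / 2 < k := by omega
  have e1 := jn1_ag (P := P) h hn2
  have e2 : n / 2 ∈ st G ↔ n / 2 ∈ st H := by
    unfold st
    simp only [Set.mem_setOf_eq]
    rw [h2 _ hn2]
  constructor
  · rintro (⟨h3, h4⟩ | ⟨h3, h4⟩)
    · exact Or.inl ⟨h3, e1.1 h4⟩
    · exact Or.inr ⟨h3, e2.1 h4⟩
  · rintro (⟨h3, h4⟩ | ⟨h3, h4⟩)
    · exact Or.inl ⟨h3, e1.2 h4⟩
    · exact Or.inr ⟨h3, e2.2 h4⟩

theorem good_FunP (P : Set ℕ) (R : ℕ → List ℕ × List ℕ → Prop) : GoodFn (FunP P R) where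
  dep := by
    rintro v k G H f g h1 h2 ⟨c, hc, hp, hn⟩
    exact ⟨c, hc, fun x hx => ⟨(hp x hx).1, (jnP_ag h2 h1 (hp x hx).1).1 (hp x hx).2⟩,
      fun x hx => ⟨(hn x hx).1, fun h => (hn x hx).2 ((jnP_ag h2 h1 (hn x hx).1).2 h)⟩⟩
  mono := by
    rintro v k l G f hkl ⟨c, hc, hp, hn⟩
    exact ⟨c, hc, fun x hx => ⟨(hp x hx).1.trans_le hkl, (hp x hx).2⟩,
      fun x hx => ⟨(hn x hx).1.trans_le hkl, (hn x hx).2⟩⟩

/-- the family of base functionals -/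
def BsP (P : Set ℕ) : Set Fn := (FunP P '' REs) ∪ {idF}

theorem BsP_countable (P : Set ℕ) : (BsP P).Countable :=
  (countable_REs.image _).union (Set.countable_singleton _)

theorem BsP_good (P : Set ℕ) : ∀ Γ ∈ BsP P, GoodFn Γ := by
  rintro Γ (⟨R, _, rfl⟩ | h)
  · exact good_FunP P R
  · rw [Set.mem_singleton_iff.1 h]
    exact good_idF

/-- `g` is computed from `P` and `f` by the two enumerations -/
def RelP (P : Set ℕ) (R1 R0 : ℕ → List ℕ × List ℕ → Prop) (f g : Col) : Prop :=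
  (∀ x y, ¬ x < y → g x y = false) ∧
    ∀ n, (n ∈ cod g ↔ ∃ c, R1 n c ∧ Ok (jn P (cod f)) c) ∧
      (n ∉ cod g ↔ ∃ c, R0 n c ∧ Ok (jn P (cod f)) c)

theorem OkP_ag {P : Set ℕ} {f : Col} {c : List ℕ × List ℕ} (h : Ok (jn P (cod f)) c) :
    ∃ k, ∀ f', agC k f f' → Ok (jn P (cod f')) c := by
  refine ⟨(c.1.sum + c.2.sum) + 1, fun f' hf => ⟨fun x hx => ?_, fun x hx h' => ?_⟩⟩
  · have : x ≤ c.1.sum := List.single_le_sum (fun _ _ => Nat.zero_le _) x hx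
    exact (jn1_ag hf (by omega)).1 (h.1 x hx)
  · have : x ≤ c.2.sum := List.single_le_sum (fun _ _ => Nat.zero_le _) x hx
    exact h.2 x hx ((jn1_ag hf (by omega)).2 h')

theorem RelP_cont (P : Set ℕ) (R1 R0 : ℕ → List ℕ × List ℕ → Prop) (f g : Col)
    (h : RelP P R1 R0 f g) (j : ℕ) :
    ∃ k, ∀ f' g', agC k f f' → RelP P R1 R0 f' g' → agC j g g' := by
  classical
  have h1 : ∀ n, ∃ k, ∀ f' g', agC k f f' → RelP P R1 R0 f' g' → (n ∈ cod g ↔ n ∈ cod g') := by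
    intro n
    by_cases hn : n ∈ cod g
    · obtain ⟨c, hc, hok⟩ := (h.2 n).1.1 hn
      obtain ⟨k, hk⟩ := OkP_ag hok
      exact ⟨k, fun f' g' hf hg => ⟨fun _ => (hg.2 n).1.2 ⟨c, hc, hk f' hf⟩, fun _ => hn⟩⟩
    · obtain ⟨c, hc, hok⟩ := (h.2 n).2.1 hn
      obtain ⟨k, hk⟩ := OkP_ag hok
      exact ⟨k, fun f' g' hf hg => ⟨fun h' => absurd h' hn,
        fun h' => absurd h' ((hg.2 n).2.2 ⟨c, hc, hk f' hf⟩)⟩⟩
  choose k hk using h1
  have hex : ∃ K, ∀ n, n < Nat.pair j j + 1 → k n ≤ K := by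
    refine ⟨∑ n ∈ Finset.range (Nat.pair j j + 1), k n, fun n hn => ?_⟩
    exact Finset.single_le_sum (f := k) (fun _ _ => Nat.zero_le _) (Finset.mem_range.2 hn)
  obtain ⟨K, hK⟩ := hex
  refine ⟨K, fun f' g' hf hg x hx y hy => ?_⟩
  by_cases hxy : x < y
  · have h2 : Nat.pair x y < Nat.pair j j := by
      have := Nat.pair_lt_pair_left y hx
      have := Nat.pair_lt_pair_right j hy
      omega
    have h3 := hk (Nat.pair x y) f' g' (agC_mono (hK _ (by omega)) hf) hg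
    have h4 : ∀ g : Col, Nat.pair x y ∈ cod g ↔ g x y = true := by
      intro g
      constructor
      · rintro ⟨a, b, _, hab, h5⟩
        have := Nat.pair_eq_pair.1 hab
        rw [this.1, this.2]
        exact h5
      · intro h5
        exact ⟨x, y, hxy, rfl, h5⟩
    rw [h4, h4] at h3
    rw [Bool.eq_iff_iff]
    exact h3
  · rw [h.1 x y hxy, hg.1 x y hxy]

/-- the main theorem relative to `P`, for colourings `ℕ → ℕ → Bool`; `A` : the limit colours -/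
theorem mainP (P : Set ℕ) :
    ∃ (f : Col) (A : S), (∀ x, ∃ n, ∀ y, n ≤ y → f x y = A x) ∧
      ∀ g : Col, (∀ x y, ¬ x < y → g x y = false) →
      TuringReducible (chi (cod g)) (chi (jn P (cod f))) →
      ∃ G : Set ℕ, G.Infinite ∧
        (∀ x y z, x < y → y < z → x ∈ G → y ∈ G → z ∈ G →
          ¬ (g x y = false ∧ g x z = true ∧ g y z = true)) ∧
        ∀ H : Set ℕ, H.Infinite → (∃ i : Bool, ∀ x ∈ H, A x = i) →
          ¬ TuringReducible (chi H) (chi (jn (jn P (cod f)) G)) := by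
  classical
  have hM := Pool.Agent.H797R4.RT.taskM
  have hW : TaskW := Pool.Agent.H904R6.CR.W.t
  have hA : TaskA := Pool.Agent.H856R3.RT.taskA
  have hL : TaskL := Pool.Agent.H904R6.CR.L.t
  obtain ⟨Fm, hFm⟩ := Pool.Agent.H904R6.CR.Fam.t Pool.Agent.H904R6.CR.Good.t
    Pool.Agent.H904R6.CR.taskGoodA Pool.Agent.H904R6.CR.GoodB.t Pool.Agent.H257R3.CR.taskGoodC
    (BsP P) (BsP_countable P) (BsP_good P)
  have : Countable REs := countable_REs.to_subtype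
  have : Countable Fm := hFm.cnt.to_subtype
  obtain ⟨f, A, hlim, hf⟩ := Pool.Agent.H904R6.CR.F.taskF (REs × REs × Fm)
    (fun i f g => RelP P i.1.1 i.2.1.1 f g)
    (fun i => i.2.2.1) (fun i => hFm.good _ i.2.2.2) (fun i f g h j => RelP_cont _ _ _ f g h j)
  refine ⟨f, A, hlim, fun g hg hgf => ?_⟩
  obtain ⟨⟨R1, hR1, h1⟩, ⟨R0, hR0, h0⟩⟩ := turingReducible_iff.1 hgf
  have hrel : RelP P R1 R0 f g := ⟨hg, fun n => ⟨h1 n, h0 n⟩⟩
  have hal : Al Fm A f g (fun _ => true) := by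
    refine ⟨?_, fun T hT => hf (⟨R1, hR1⟩, ⟨R0, hR0⟩, ⟨T, hT⟩) g hrel⟩
    simpa using Set.infinite_univ
  obtain ⟨G, hGi, hGv, hGr⟩ := Pool.Agent.H904R6.CR.G.t hM hW hA hL (BsP P) Fm (BsP_countable P)
    (BsP_good P) (Or.inr rfl) hFm A f g hal
  refine ⟨st G, hGi, fun x y z h1 h2 h3 h4 h5 => hGv x y z h1 h2 h3 h4 h5, ?_⟩
  rintro H hH ⟨i, hAi⟩ hred
  obtain ⟨⟨R, hR, hRH⟩, _⟩ := turingReducible_iff.1 hred
  have hst : ∀ v, v ∈ H ↔ ∃ k, FunP P R v k G f := by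
    intro v
    refine Iff.trans (hRH v) ?_
    constructor
    · rintro ⟨c, hc, hok⟩
      refine ⟨(c.1.sum + c.2.sum) + 1, c, hc, fun x hx => ⟨?_, hok.1 x hx⟩,
        fun x hx => ⟨?_, hok.2 x hx⟩⟩
      · have : x ≤ c.1.sum := List.single_le_sum (fun _ _ => Nat.zero_le _) x hx
        omega
      · have : x ≤ c.2.sum := List.single_le_sum (fun _ _ => Nat.zero_le _) x hx
        omega
    · rintro ⟨k, c, hc, hp, hn⟩
      exact ⟨c, hc, fun x hx => (hp x hx).2, fun x hx => (hn x hx).2⟩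
  rcases hGr (FunP P R) (Or.inl ⟨R, hR, rfl⟩) (!i) with ⟨v, k, hv, hvA⟩ | ⟨m, hm⟩
  · have := hAi v ((hst v).2 ⟨k, hv⟩)
    rw [this] at hvA
    cases i <;> simp at hvA
  · obtain ⟨y, hy, hym⟩ := hH.exists_gt m
    obtain ⟨k, hk⟩ := (hst y).1 hy
    have := hm y k hk
    omega

end Pool.Agent.KS6_32.RS
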